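import Pool.Agent.Y75.MQ.Mag

/-!
Functors of groups with transfers along pairs of cocycles which agree outside finite sets; products
with a fixed group.
-/

namespace Pool.Agent.Y75.MQ

open Pool.Agent.Y483 Pool.Agent.Y110.KW CategoryTheory DirectSum

/-- The label `g ↦ c(j(g), a)` of a point `a` fixed by the image of `j`, for the first cocycle. -/
def labelC {G A K G₀ : Type} [Group G] [Group K] [Group G₀] (κ : FinPair G A K)
    (j : G₀ →* G) (hj : ∀ g a, κ.σ (j g) a = a) (a : A) : G₀ →* K where
  toFun g := κ.c (j g) a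
  map_one' := by rw [map_one]; exact cocycle_one κ.mul_c a
  map_mul' g h := by rw [map_mul, κ.mul_c, hj]

/-- The label `g ↦ d(j(g), a)` of a point `a` fixed by the image of `j`, for the second cocycle. -/
def labelD {G A K G₀ : Type} [Group G] [Group K] [Group G₀] (κ : FinPair G A K)
    (j : G₀ →* G) (hj : ∀ g a, κ.σ (j g) a = a) (a : A) : G₀ →* K where
  toFun g := κ.d (j g) a
  map_one' := by rw [map_one]; exact cocycle_one κ.mul_d a
  map_mul' g h := by rw [map_mul, κ.mul_d, hj]

/-- A functor has transfers along pairs if for each action of a group `G` on a set `A` and each two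
cocycles `c, d : G × A → K` which agree, for each `g`, for all but finitely many `a` (`FinPair`),
there is a linear map `Φ : E(G) → E(K)` with the following property. If `j : G₀ → G` is a
homomorphism whose image acts trivially on `A`, and `c(j(g), a) = d(j(g), a)` for all `g` and all
`a` outside the finite set `Y`, then `Φ(E(j) x)` is the sum over `a ∈ Y` of
`E(c(j(·), a)) x - E(d(j(·), a)) x`. -/
def HasPairTransfers (E : GrpCat.{0} ⥤ ModuleCat.{0} ℚ) : Prop :=
  ∀ (G A K : Type) [Group G] [Group K] (κ : FinPair G A K),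
    ∃ Φ : E.obj (GrpCat.of G) →ₗ[ℚ] E.obj (GrpCat.of K),
      ∀ (G₀ : Type) [Group G₀] (j : G₀ →* G) (hj : ∀ g a, κ.σ (j g) a = a) (Y : Finset A),
        (∀ a ∉ Y, ∀ g, κ.c (j g) a = κ.d (j g) a) → ∀ x : E.obj (GrpCat.of G₀),
          Φ (emap E j x) = ∑ a ∈ Y, (emap E (labelC κ j hj a) x - emap E (labelD κ j hj a) x)

/-- The functor `G ↦ G × T`. -/
def timesF (T : Type) [Group T] : GrpCat.{0} ⥤ GrpCat.{0} where
  obj G := GrpCat.of (G × T)
  map f := GrpCat.ofHom (timesT f.hom T)
  map_id _ := rfl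
  map_comp _ _ := rfl

theorem hasTransfers_times {E : GrpCat.{0} ⥤ ModuleCat.{0} ℚ} (hE : HasPairTransfers E)
    (T : Type) [Group T] : HasTransfers (timesF T ⋙ E) := by
  intro G A K _ _ _ κ
  obtain ⟨Φ, hΦ⟩ := hE (G × T) A (K × T) (κ.pair T)
  refine ⟨Φ, ?_⟩
  intro G₀ _ j hj Y hY x
  have hj' : ∀ g a, (κ.pair T).σ (timesT j T g) a = a := fun g a => hj g.1 a
  have h1 := hΦ (G₀ × T) (timesT j T) hj' Y (by
    intro a ha g
    exact Prod.ext (hY a ha g.1) rfl) x
  have e1 : ∀ a, labelC (κ.pair T) (timesT j T) hj' a = timesT (κ.label j hj a) T := by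
    intro a
    ext1 g
    rfl
  have e2 : ∀ a, labelD (κ.pair T) (timesT j T) hj' a = timesT (1 : G₀ →* K) T := by
    intro a
    ext1 g
    rfl
  simp only [e1, e2] at h1
  exact h1

end Pool.Agent.Y75.MQ
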