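import Pool.Agent.Y110.KW.Trf
import Pool.Agent.Y483.FRRPresent

/-!
Arbitrary families of natural transformations `H_{d(b)}(G; ℚ) → E(G)`, `b ∈ B`, to a functor with
transfers along cocycles of finite support: the kernel formula for semidirect products with a
support system.
-/

namespace Pool.Agent.Y75.MQ

open Pool.Agent.Y483 Pool.Agent.Y110.KW CategoryTheory DirectSum Pointwise

variable {B : Type} (d : B → ℕ)

/-- The total rational homology `⨁_{b ∈ B} H_{d(b)}(G; ℚ)`. -/
abbrev HB (G : Type) [Group G] : Type := ⨁ b : B, HQ (d b) G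

/-- The map induced on the total rational homology. -/
noncomputable def hbMap {G K : Type} [Group G] [Group K] (f : G →* K) :
    HB d G →ₗ[ℚ] HB d K := DirectSum.lmap (fun b : B => hqMap f (d b))

theorem hbMap_apply {G K : Type} [Group G] [Group K] (f : G →* K) (x : HB d G)
    (b : B) : hbMap d f x b = hqMap f (d b) (x b) := by
  unfold hbMap
  exact DirectSum.lmap_apply _ _ _

theorem hbMap_of [DecidableEq B] {G K : Type} [Group G] [Group K] (f : G →* K) (b : B)
    (x : HQ (d b) G) :
    hbMap d f (DirectSum.of (fun b : B => HQ (d b) G) b x) =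
      DirectSum.of (fun b : B => HQ (d b) K) b (hqMap f (d b) x) := by
  unfold hbMap
  exact DirectSum.lmap_lof _ _ _

theorem hbMap_id (G : Type) [Group G] (x : HB d G) :
    hbMap d (MonoidHom.id G) x = x := by
  apply DFunLike.ext
  intro j
  rw [hbMap_apply, hqMap_id]

theorem hbMap_comp {G K L : Type} [Group G] [Group K] [Group L] (g : K →* L)
    (f : G →* K) (x : HB d G) : hbMap d (g.comp f) x = hbMap d g (hbMap d f x) := by
  apply DFunLike.ext
  intro j
  rw [hbMap_apply, hbMap_apply, hbMap_apply, hqMap_comp]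

theorem hbMap_conj {G K : Type} [Group G] [Group K] (f : G →* K) (k : K)
    (x : HB d G) : hbMap d (conjHom f k) x = hbMap d f x := by
  apply DFunLike.ext
  intro j
  rw [hbMap_apply, hbMap_apply, hqMap_conj]

variable {Γ N : Type} [Group Γ] [Group N] {φ : Γ →* MulAut N}

/-- A class which dies in `Γ` comes from a part of `N` supported on a finite set. -/
theorem total_from_base_b (ss : SupportSystem φ) (x : HB d (N ⋊[φ] Γ))
    (hx : hbMap d SemidirectProduct.rightHom x = 0) :
    ∃ (S : Finset Γ) (b : HB d N), hbMap d (1 : N →* Unit) b = 0 ∧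
      hbMap d (ss.incl (S : Set Γ)) b = x := by
  classical
  have h1 : ∀ j : B, ∃ (S : Finset Γ) (b : HQ (d j) N), hqMap (ss.e S) (d j) b = b ∧
      hqMap (1 : N →* Unit) (d j) b = 0 ∧ hqMap SemidirectProduct.inl (d j) b = x j := by
    intro j
    apply class_from_base ss
    rw [← hbMap_apply, hx]
    rfl
  choose S b hb1 hb2 hb3 using h1
  refine ⟨(DFinsupp.support x).biUnion S,
    ∑ j ∈ DFinsupp.support x, DirectSum.of (fun j : B => HQ (d j) N) j (b j), ?_, ?_⟩
  · rw [map_sum]
    apply Finset.sum_eq_zero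
    intro j _
    rw [hbMap_of, hb2, map_zero]
  · rw [map_sum]
    conv_rhs => rw [← DirectSum.sum_support_of x]
    apply Finset.sum_congr rfl
    intro j hj
    rw [hbMap_of]
    congr 1
    unfold SupportSystem.incl
    rw [hqMap_comp]
    have h2 : hqMap (ss.e (((DFinsupp.support x).biUnion S : Finset Γ) : Set Γ)) (d j) (b j) =
        b j := by
      apply e_mono ss (d j) _ (hb1 j)
      rw [Finset.coe_subset]
      exact Finset.subset_biUnion_of_mem S hj
    rw [h2, hb3]

variable {E : GrpCat.{0} ⥤ ModuleCat.{0} ℚ} (α : ∀ b : B, hq (d b) ⟶ E)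

open Classical in
/-- The total map `⨁_{b ∈ B} H_{d(b)}(G; ℚ) → E(G)`. -/
noncomputable def tb (G : Type) [Group G] : HB d G →ₗ[ℚ] E.obj (GrpCat.of G) :=
  DirectSum.toModule ℚ B _ fun b : B => ((α b).app (GrpCat.of G)).hom

open Classical in
theorem tb_of (G : Type) [Group G] (b : B) (y : HQ (d b) G) :
    tb d α G (DirectSum.of (fun b : B => HQ (d b) G) b y) =
      ((α b).app (GrpCat.of G)).hom y :=
  DirectSum.toModule_lof ℚ (φ := fun b : B => ((α b).app (GrpCat.of G)).hom) b y

theorem tb_nat {G K : Type} [Group G] [Group K] (f : G →* K)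
    (x : HB d G) : emap E f (tb d α G x) = tb d α K (hbMap d f x) := by
  classical
  have h : (emap E f) ∘ₗ (tb d α G) = (tb d α K) ∘ₗ (hbMap d f) := by
    apply DirectSum.linearMap_ext
    intro b
    apply LinearMap.ext
    intro y
    have h := (α b).naturality (GrpCat.ofHom f)
    have e1 : tb d α G (DirectSum.lof ℚ B (fun b : B => HQ (d b) G) b y) =
      ((α b).app (GrpCat.of G)).hom y := tb_of d α G b y
    have e2 : hbMap d f (DirectSum.lof ℚ B (fun b : B => HQ (d b) G) b y) =
      DirectSum.of (fun b : B => HQ (d b) K) b (hqMap f (d b) y) := hbMap_of d f b y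
    change emap E f (tb d α G (DirectSum.lof ℚ B (fun b : B => HQ (d b) G) b y)) =
      tb d α K (hbMap d f (DirectSum.lof ℚ B (fun b : B => HQ (d b) G) b y))
    rw [e1, e2, tb_of]
    exact (congrArg (fun g => g.hom y) h).symm
  exact DFunLike.congr_fun h x

theorem tb_map {G K : Type} [Group G] [Group K] (f : G →* K)
    {x : HB d G} (hx : tb d α G x = 0) : tb d α K (hbMap d f x) = 0 := by
  rw [← tb_nat, hx, map_zero]

/-- If the total map of `G` kills the image of a reduced class of `G₀`, the total map of `K`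
kills the sum of the images under the labels. -/
theorem key_b (hE : HasTransfers E) {G A K G₀ : Type} [Group G]
    [MulAction G A] [Group K] [Group G₀] (κ : FinCocycle G A K)
    (j : G₀ →* G) (hj : ∀ g (a : A), j g • a = a) (Y : Finset A)
    (hY : ∀ a ∉ Y, ∀ g, κ.c (j g) a = 1) (x : HB d G₀) (hx0 : hbMap d (1 : G₀ →* Unit) x = 0)
    (hx : tb d α G (hbMap d j x) = 0) :
    tb d α K (∑ a ∈ Y, hbMap d (κ.label j hj a) x) = 0 := by
  obtain ⟨Φ, hΦ⟩ := hE G A K κ
  have h1 := hΦ G₀ j hj Y hY (tb d α G₀ x)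
  rw [tb_nat, hx, map_zero] at h1
  rw [map_sum, h1]
  apply Finset.sum_congr rfl
  intro a _
  have h2 : emap E (1 : G₀ →* K) (tb d α G₀ x) = 0 := by
    rw [tb_nat]
    have : (1 : G₀ →* K) = (1 : Unit →* K).comp (1 : G₀ →* Unit) := rfl
    rw [this, hbMap_comp, hx0, map_zero, map_zero]
  rw [h2, sub_zero, tb_nat]

/-- The part of the kernel coming from the parts of `N` supported on finite sets. -/
noncomputable def baseB (ss : SupportSystem φ) :
    Submodule ℚ (HB d (N ⋊[φ] Γ)) :=
  ⨆ F : Finset Γ, (LinearMap.ker (tb d α (ss.part (F : Set Γ)))).map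
    (hbMap d (ss.partIncl (F : Set Γ)))

theorem base_kernel_b (hE : HasTransfers E) (ss : SupportSystem φ)
    (F₀ : Set Γ) (hF₀ : F₀.Finite) (x : HB d N) (hx0 : hbMap d (1 : N →* Unit) x = 0)
    (hx : tb d α (N ⋊[φ] Γ) (hbMap d (ss.incl F₀) x) = 0) :
    hbMap d (ss.incl F₀) x ∈ baseB d α ss := by
  classical
  rw [← Submodule.Quotient.mk_eq_zero]
  have hmain := eq_zero_of_translates (V := (HB d (N ⋊[φ] Γ)) ⧸ baseB d α ss)
    (fun S : Finset Γ => (baseB d α ss).mkQ (hbMap d (ss.incl ((S : Set Γ) ∩ F₀)) x))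
    hF₀.toFinset ?_ ?_ ?_
  · simpa using hmain
  · intro S
    simp [Set.inter_assoc]
  · have : ss.incl (((∅ : Finset Γ) : Set Γ) ∩ F₀) =
        (1 : Unit →* N ⋊[φ] Γ).comp (1 : N →* Unit) := by
      ext1 n
      simp only [SupportSystem.incl, MonoidHom.comp_apply, Finset.coe_empty, Set.empty_inter,
        ss.empty, map_one, MonoidHom.one_apply]
    rw [this, hbMap_comp, hx0, map_zero, map_zero]
  · intro T Y hY
    have hTfin : (T : Set Γ).Finite := T.finite_toSet
    have hj : ∀ (g : N) (a : Pt φ), ss.incl F₀ g • a = a := by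
      intro g a
      exact one_mul (show Γ from a)
    have hlab : ∀ a ∉ (Y : Finset (Pt φ)), ∀ g : N, (ss.cocycle T hTfin).c (ss.incl F₀ g) a = 1 := by
      intro a ha g
      apply Subtype.ext
      change ss.e T (φ ((1 : Γ) * (show Γ from a))⁻¹ (ss.e F₀ g)) = 1
      rw [one_mul, ss.equivariant]
      rw [ss.inter]
      have hd : (T : Set Γ) ∩ ((show Γ from a)⁻¹ • F₀) = ∅ := by
        rw [← Set.disjoint_iff_inter_eq_empty, Set.disjoint_left]
        intro t ht ht'
        have h2 := Finset.disjoint_left.mp (hY a ha)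
          (Finset.smul_mem_smul_finset (a := (show Γ from a)) ht)
        apply h2
        rw [Set.mem_inv_smul_set_iff] at ht'
        simpa using ht'
      rw [hd, ss.empty]
    have hk := key_b d α hE (ss.cocycle T hTfin) (ss.incl F₀) hj Y hlab x hx0 hx
    have hmem : hbMap d (ss.partIncl (T : Set Γ)) (∑ a ∈ (Y : Finset (Pt φ)),
        hbMap d ((ss.cocycle T hTfin).label (ss.incl F₀) hj a) x) ∈ baseB d α ss :=
      Submodule.mem_iSup_of_mem T (Submodule.mem_map_of_mem (LinearMap.mem_ker.mpr hk))
    have hk4 : ∑ a ∈ (Y : Finset (Pt φ)), (baseB d α ss).mkQ (hbMap d (ss.partIncl (T : Set Γ))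
        (hbMap d ((ss.cocycle T hTfin).label (ss.incl F₀) hj a) x)) = 0 := by
      rw [← map_sum, ← map_sum, Submodule.mkQ_apply, Submodule.Quotient.mk_eq_zero]
      exact hmem
    refine Eq.trans ?_ hk4
    refine Finset.sum_congr (ι := Γ) rfl ?_
    intro y _
    rw [← hbMap_comp, ← hbMap_conj d _ ((SemidirectProduct.inr y : N ⋊[φ] Γ)⁻¹)]
    congr 3
    ext1 n
    simp only [conjHom, MonoidHom.comp_apply, MulEquiv.coe_toMonoidHom, MulAut.conj_apply, inv_inv]
    rw [Finset.coe_smul_finset, ss.incl_smul]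
    change SemidirectProduct.inl (ss.e T (φ y⁻¹ (ss.e F₀ n))) =
      SemidirectProduct.inl (ss.e T (φ ((1 : Γ) * y)⁻¹ (ss.e F₀ n)))
    rw [one_mul]

/-- **Kernel formula** for semidirect products with a support system, arbitrary families. -/
theorem semi_kernel_b (hE : HasTransfers E) (ss : SupportSystem φ) :
    LinearMap.ker (tb d α (N ⋊[φ] Γ)) =
      (LinearMap.ker (tb d α Γ)).map (hbMap d (SemidirectProduct.inr : Γ →* N ⋊[φ] Γ)) ⊔
        baseB d α ss := by
  apply le_antisymm
  · intro x hx
    rw [LinearMap.mem_ker] at hx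
    set y := hbMap d SemidirectProduct.rightHom x with hy
    have hy0 : tb d α Γ y = 0 := tb_map d α _ hx
    set x' := x - hbMap d SemidirectProduct.inr y with hx'
    have h1 : hbMap d SemidirectProduct.rightHom x' = 0 := by
      rw [hx', map_sub, ← hbMap_comp d SemidirectProduct.rightHom SemidirectProduct.inr,
        SemidirectProduct.rightHom_comp_inr, hbMap_id, ← hy, sub_self]
    have h2 : tb d α (N ⋊[φ] Γ) x' = 0 := by
      rw [hx', map_sub, hx, ← tb_nat, hy0, map_zero, sub_self]
    obtain ⟨S, b, hb, hbx⟩ := total_from_base_b d ss x' h1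
    have h3 := base_kernel_b d α hE ss (S : Set Γ) S.finite_toSet b hb (by rw [hbx]; exact h2)
    rw [hbx] at h3
    have h6 : x = hbMap d SemidirectProduct.inr y + x' := by rw [hx']; abel
    rw [h6]
    apply Submodule.add_mem_sup
    · exact Submodule.mem_map_of_mem (LinearMap.mem_ker.mpr hy0)
    · exact h3
  · apply sup_le
    · rw [Submodule.map_le_iff_le_comap]
      intro y hy
      exact tb_map d α _ hy
    · apply iSup_le
      intro F
      rw [Submodule.map_le_iff_le_comap]
      intro y hy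
      exact tb_map d α _ hy

end Pool.Agent.Y75.MQ
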