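import Pool.Agent.Y75.MQ.Fam

/-!
Arbitrary families of natural transformations from rational homology to a functor with transfers:
injectivity on the groups `F / [R, R]`.
-/

namespace Pool.Agent.Y75.MQ

open Pool.Agent.Y483 Pool.Agent.Y110.KW CategoryTheory DirectSum Pointwise Finsupp

variable {B : Type} (d : B → ℕ) {E : GrpCat.{0} ⥤ ModuleCat.{0} ℚ} (α : ∀ b : B, hq (d b) ⟶ E)

/-- A class of `K` is fixed by every endomorphism which fixes the elements of some finite set. -/
theorem exists_finite_fix_b {K : Type} [Group K] (x : HB d K) :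
    ∃ S : Finset K, ∀ f : K →* K, (∀ k ∈ S, f k = k) → hbMap d f x = x := by
  classical
  choose z hz using fun j : B => exists_rpr (Rep.trivial ℚ K ℚ) (d j) (x j)
  refine ⟨(DFinsupp.support x).biUnion fun j => (z j).support.biUnion fun w =>
    Finset.univ.image w, ?_⟩
  intro f hf
  apply DFunLike.ext
  intro j
  rw [hbMap_apply]
  by_cases hj : x j = 0
  · rw [hj, map_zero]
  · have h1 := ((hz j).hq f).sub (hz j)
    rw [← sub_eq_zero, h1.eq_zero_iff, mp_eq_self, sub_self]
    · exact Submodule.zero_mem _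
    · intro w hw i
      apply hf
      rw [Finset.mem_biUnion]
      refine ⟨j, DFinsupp.mem_support_iff.mpr hj, ?_⟩
      rw [Finset.mem_biUnion]
      exact ⟨w, hw, Finset.mem_image_of_mem w (Finset.mem_univ i)⟩

/-- The kernel of the total map of a retract. -/
theorem ker_retract_b {K K' : Type} [Group K] [Group K'] (i : K →* K') (r : K' →* K)
    (hri : ∀ k, r (i k) = k) (h : LinearMap.ker (tb d α K') = ⊥) :
    LinearMap.ker (tb d α K) = ⊥ := by
  rw [eq_bot_iff]
  intro x hx
  have h1 : hbMap d i x ∈ LinearMap.ker (tb d α K') := tb_map d α i hx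
  rw [h, Submodule.mem_bot] at h1
  have h2 : r.comp i = MonoidHom.id K := MonoidHom.ext hri
  rw [Submodule.mem_bot, ← hbMap_id d K x, ← h2, hbMap_comp, h1, map_zero]

/-- Free abelian groups of arbitrary rank. -/
theorem ker_HH_b (I : Type) (hZ : ∀ n, LinearMap.ker (tb d α (Zn n)) = ⊥) :
    LinearMap.ker (tb d α (HH I)) = ⊥ := by
  classical
  rw [eq_bot_iff]
  intro x hx
  obtain ⟨S, hS⟩ := exists_finite_fix_b d x
  let E₀ : Finset I := S.biUnion fun k => k.toAdd.support
  let e : Fin E₀.card ≃ E₀ := E₀.equivFin.symm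
  let a : HH I →* Zn E₀.card :=
    { toFun := fun k => Multiplicative.ofAdd (fun i => k.toAdd (e i))
      map_one' := rfl
      map_mul' := fun _ _ => rfl }
  let b : Zn E₀.card →* HH I :=
    { toFun := fun k => Multiplicative.ofAdd (∑ i, single (e i : I) (k.toAdd i))
      map_one' := by
        apply congrArg Multiplicative.ofAdd
        apply Finset.sum_eq_zero
        intro i _
        exact Finsupp.single_zero _
      map_mul' := fun k k' => by
        apply congrArg Multiplicative.ofAdd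
        change ∑ i, single (e i : I) (k.toAdd i + k'.toAdd i) =
          ∑ i, single (e i : I) (k.toAdd i) + ∑ i, single (e i : I) (k'.toAdd i)
        rw [← Finset.sum_add_distrib]
        apply Finset.sum_congr rfl
        intro i _
        exact Finsupp.single_add _ _ _ }
  have hfix : ∀ k ∈ S, (b.comp a) k = k := by
    intro k hk
    apply congrArg Multiplicative.ofAdd
    change ∑ i, single (e i : I) (k.toAdd (e i)) = k.toAdd
    rw [Equiv.sum_comp e (fun x : E₀ => single (x : I) (k.toAdd x)),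
      Finset.sum_coe_sort E₀ (fun x => single x (k.toAdd x))]
    have h1 : k.toAdd.support ⊆ E₀ := Finset.subset_biUnion_of_mem _ hk
    conv_rhs => rw [← Finsupp.sum_single k.toAdd]
    rw [Finsupp.sum]
    symm
    apply Finset.sum_subset h1
    intro e' _ he'
    rw [Finsupp.notMem_support_iff.mp he', Finsupp.single_zero]
  have h1 : hbMap d a x ∈ LinearMap.ker (tb d α (Zn E₀.card)) := tb_map d α a hx
  rw [hZ, Submodule.mem_bot] at h1
  rw [Submodule.mem_bot, ← hS (b.comp a) hfix, hbMap_comp, h1, map_zero]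

section Main

variable {Γ I : Type} [Group Γ] [MulAction Γ I] {Q : Edges Γ I} {G : Type} [Group G]

/-- The kernel of the total map of the semidirect product comes from `Γ`. -/
theorem ker_WE_b (hE : HasTransfers E) (hQ : Q.Equiv')
    (hZ : ∀ n, LinearMap.ker (tb d α (Zn n)) = ⊥) :
    LinearMap.ker (tb d α (WE Γ I)) =
      (LinearMap.ker (tb d α Γ)).map (hbMap d SemidirectProduct.inr) := by
  have h0 := semi_kernel_b d α hE (suppE Q hQ)
  have h : baseB d α (suppE Q hQ) = ⊥ := by
    unfold baseB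
    rw [iSup_eq_bot]
    intro F
    have h1 : LinearMap.ker (tb d α ((suppE Q hQ).part (F : Set Γ))) = ⊥ := by
      apply ker_retract_b d α ((suppE Q hQ).e (F : Set Γ)).range.subtype
        ((suppE Q hQ).e (F : Set Γ)).rangeRestrict _ (ker_HH_b d α I hZ)
      rintro ⟨k, p, rfl⟩
      apply Subtype.ext
      change (suppE Q hQ).e (F : Set Γ) ((suppE Q hQ).e (F : Set Γ) p) = _
      rw [(suppE Q hQ).inter, Set.inter_self]
    rw [h1, Submodule.map_bot]
  rw [h, sup_bot_eq] at h0
  exact h0

/-- **Injectivity for Magnus groups.** -/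
theorem ker_magnus_b (hE : HasTransfers E) (hQ : Q.Equiv') (M : Magnus Q G)
    (hZ : ∀ n, LinearMap.ker (tb d α (Zn n)) = ⊥) : LinearMap.ker (tb d α G) = ⊥ := by
  rw [eq_bot_iff]
  intro x hx
  have h1 : hbMap d M.mu x ∈ LinearMap.ker (tb d α (WE Γ I)) := tb_map d α M.mu hx
  rw [ker_WE_b d α hE hQ hZ] at h1
  obtain ⟨y, -, hy⟩ := h1
  have h0 : hbMap d (1 : G →* Zn 0) x ∈ LinearMap.ker (tb d α (Zn 0)) := tb_map d α _ hx
  rw [hZ, Submodule.mem_bot] at h0
  rw [Submodule.mem_bot]
  apply DFunLike.ext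
  intro b
  change x b = 0
  have hx1 : hqMap (1 : G →* Zn 0) (d b) (x b) = 0 := by
    have h2 := congrArg (fun u : HB d (Zn 0) => u b) h0
    exact (hbMap_apply d (1 : G →* Zn 0) x b).symm.trans h2
  have hx2 : hqMap M.mu (d b) (x b) =
      hqMap (SemidirectProduct.inr : Γ →* WE Γ I) (d b) (y b) := by
    have h3 := congrArg (fun u : HB d (WE Γ I) => u b) hy
    have h4 := hbMap_apply d (SemidirectProduct.inr : Γ →* WE Γ I) y b
    have h5 := hbMap_apply d M.mu x b
    exact h5.symm.trans (h3.symm.trans h4)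
  generalize x b = xb at *
  generalize y b = yb at *
  generalize d b = j at *
  cases j with
  | zero => exact hq_zero_injective (1 : G →* Zn 0) _ hx1
  | succ j =>
    obtain ⟨z, hz⟩ := exists_rpr (Rep.trivial ℚ G ℚ) (j + 1) xb
    obtain ⟨w, hw⟩ := exists_rpr (Rep.trivial ℚ Γ ℚ) (j + 1) yb
    have h2 : hqMap M.mu (j + 1) xb -
        hqMap (SemidirectProduct.inr : Γ →* WE Γ I) (j + 1) yb = 0 := by
      rw [hx2, sub_self]
    have h3 := (hz.hq M.mu).sub (hw.hq (SemidirectProduct.inr : Γ →* WE Γ I))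
    rw [h3.eq_zero_iff] at h2
    have h4 := M.theoremH hQ j z ((cyc_succ _ _ _).mp hz.cyc) w h2
    exact hz.eq_zero_iff.mpr h4

/-- **Injectivity for `F / [R, R]`.** -/
theorem ker_FRR_b (hE : HasTransfers E) {X : Type} (R : Subgroup (FreeGroup X)) [R.Normal]
    (hZ : ∀ n, LinearMap.ker (tb d α (Zn n)) = ⊥) :
    LinearMap.ker (tb d α (FRR R)) = ⊥ :=
  ker_magnus_b d α hE (cayQ_equiv R) (magnusFRR R) hZ

end Main

theorem ker_equiv_b {G K : Type} [Group G] [Group K] (e : G ≃* K)
    (h : LinearMap.ker (tb d α G) = ⊥) : LinearMap.ker (tb d α K) = ⊥ :=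
  ker_retract_b d α e.symm.toMonoidHom e.toMonoidHom (fun k => e.apply_symm_apply k) h

/-- Injectivity on all `F / [R, R]` is the same as injectivity on all `ℤ^n`. -/
theorem frr_iff_b (hE : HasTransfers E) :
    (∀ n, LinearMap.ker (tb d α (Zn n)) = ⊥) ↔
      ∀ (X : Type) (R : Subgroup (FreeGroup X)) [R.Normal],
        LinearMap.ker (tb d α (FRR R)) = ⊥ := by
  constructor
  · intro h X R _
    exact ker_FRR_b d α hE R h
  · intro h n
    exact ker_equiv_b d α (abIso n) (h (Fin n) ⊤)

open Classical in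
/-- For distinct degrees it is enough that the maps are nonzero on `ℤ^j`. -/
theorem ker_Zn_of_top_b (hd : Function.Injective d)
    (h : ∀ b, (α b).app (zn (d b)) ≠ 0) (n : ℕ) :
    LinearMap.ker (tb d α (Zn n)) = ⊥ := by
  have hinj : ∀ b, ∀ x : HQ (d b) (Zn (d b)), ((α b).app (GrpCat.of (Zn (d b)))).hom x = 0 →
      x = 0 := by
    intro b x hx
    by_contra hne
    apply h b
    apply ModuleCat.hom_ext
    apply LinearMap.ext
    intro y
    obtain ⟨c, rfl⟩ := hq_line x hne y
    have h1 : ∀ f : HQ (d b) (Zn (d b)) →ₗ[ℚ] E.obj (GrpCat.of (Zn (d b))), f x = 0 →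
        f (c • x) = 0 := fun f hf => by rw [map_smul, hf, smul_zero]
    exact h1 ((α b).app (GrpCat.of (Zn (d b)))).hom hx
  rw [eq_bot_iff]
  intro x hx
  rw [Submodule.mem_bot]
  by_contra hne
  have hex : ∃ j : ℕ, ∃ b, d b = j ∧ x b ≠ 0 := by
    by_contra hcon
    push Not at hcon
    apply hne
    apply DFunLike.ext
    intro b
    exact hcon (d b) b rfl
  obtain ⟨b, hb, hxb⟩ := Nat.find_spec hex
  have hmin : ∀ b', d b' < d b → x b' = 0 := by
    intro b' hb'
    by_contra hcon
    exact Nat.find_min hex (hb ▸ hb') ⟨b', rfl, hcon⟩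
  obtain ⟨v, hv⟩ := exists_fv (x b) hxb
  apply hv
  apply hinj b
  have h1 : hbMap d (fvZ v) x = DirectSum.of (fun i : B => HQ (d i) (Zn (d b))) b
      (hqMap (fvZ v) (d b) (x b)) := by
    apply DFunLike.ext
    intro b'
    rw [hbMap_apply]
    by_cases hkj : b' = b
    · subst hkj
      rw [DirectSum.of_eq_same]
    · rw [DirectSum.of_eq_of_ne _ _ _ hkj]
      have hne' : d b' ≠ d b := fun h' => hkj (hd h')
      rcases Nat.lt_or_gt_of_ne hne' with hlt | hgt
      · rw [hmin b' hlt, map_zero]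
      · exact hq_eq_zero hgt _
  have h2 : tb d α (Zn (d b)) (hbMap d (fvZ v) x) = 0 := tb_map d α _ hx
  rw [h1, tb_of] at h2
  exact h2

open Classical in
/-- The converse. -/
theorem top_of_ker_Zn_b (b : B) (h : LinearMap.ker (tb d α (Zn (d b))) = ⊥) :
    (α b).app (zn (d b)) ≠ 0 := by
  intro h0
  obtain ⟨x, hx⟩ := exists_top (d b)
  have h1 : DirectSum.of (fun i : B => HQ (d i) (Zn (d b))) b x ∈
      LinearMap.ker (tb d α (Zn (d b))) := by
    rw [LinearMap.mem_ker, tb_of]
    have h2 : ((α b).app (zn (d b))).hom x = 0 := by rw [h0]; rfl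
    exact h2
  rw [h, Submodule.mem_bot] at h1
  apply hx
  have h2 := congrArg (fun u : HB d (Zn (d b)) => u b) h1
  rw [DirectSum.of_eq_same] at h2
  exact h2

end Pool.Agent.Y75.MQ
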